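import Mathlib

set_option autoImplicit false

namespace Pool.Agent.Helper44.Misc

/-! A dichotomy for a countable base of a uniformity on the natural numbers: the completion
contains a Cantor set or it is countable and scattered. Elementary proof, no completion is used:
points of the completion are fast Cauchy sequences. -/

section

variable {v : ℕ → ℕ → ℕ → Prop}

/-- fast Cauchy sequences -/
def Fast (v : ℕ → ℕ → ℕ → Prop) (t : ℕ → ℕ) : Prop := ∀ n m, n ≤ m → v n (t n) (t m)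

theorem v_mono (hr : ∀ n i, v n i i)
    (hc : ∀ n i j k, v (n + 1) i j → v (n + 1) j k → v n i k) {n m : ℕ} (h : n ≤ m) {i j : ℕ}
    (hm : v m i j) : v n i j := by
  induction m, h using Nat.le_induction with
  | base => exact hm
  | succ m _ ih => exact ih (hc m i j j hm (hr _ _))

/-- three step composition with mixed levels -/
theorem v_comp (hr : ∀ n i, v n i i)
    (hc : ∀ n i j k, v (n + 1) i j → v (n + 1) j k → v n i k) {n a b : ℕ} (ha : n + 1 ≤ a)
    (hb : n + 1 ≤ b) {i j k : ℕ} (h1 : v a i j) (h2 : v b j k) : v n i k :=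
  hc n i j k (v_mono hr hc ha h1) (v_mono hr hc hb h2)

/-- the fundamental detectability of closeness -/
theorem close_of_one (hr : ∀ n i, v n i i) (hs : ∀ n i j, v n i j → v n j i)
    (hc : ∀ n i j k, v (n + 1) i j → v (n + 1) j k → v n i k) {t t' : ℕ → ℕ}
    (ht : Fast v t) (ht' : Fast v t') {p m : ℕ} (hm : p + 2 ≤ m) (h : v (p + 2) (t m) (t' m)) :
    ∀ k, m ≤ k → v p (t k) (t' k) := by
  intro k hk
  have h1 : v m (t k) (t m) := hs _ _ _ (ht m k hk)
  have h2 : v (p + 1) (t k) (t' m) := v_comp hr hc (by omega) (by omega) h1 h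
  exact v_comp hr hc (by omega) (by omega) h2 (ht' m k hk)

theorem cantor_part (hr : ∀ n i, v n i i) (hs : ∀ n i j, v n i j → v n j i)
    (hc : ∀ n i j k, v (n + 1) i j → v (n + 1) j k → v n i k) (A : Set (ℕ → ℕ))
    (hne : A.Nonempty) (hA : ∀ t ∈ A, Fast v t)
    (hd : ∀ t ∈ A, ∀ n, ∃ t' ∈ A, (∃ N, ∀ m ≥ N, v n (t m) (t' m)) ∧
      ¬ ∀ n', ∃ N, ∀ m ≥ N, v n' (t m) (t' m)) :
    ∃ s : Set ℕ → ℕ → ℕ, (∀ a, ∀ n m, n ≤ m → v n (s a n) (s a m)) ∧
      ∀ a b, a ≠ b → ∃ n N, ∀ m ≥ N, ¬ v n (s a m) (s b m) := by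
  classical
  -- next step
  have step : ∀ x : A × ℕ, ∃ y : A × ℕ, x.2 + 1 ≤ y.2 ∧
      (∀ m, y.2 ≤ m → v (x.2 + 1) (x.1.1 m) (y.1.1 m)) ∧
      ∃ p, p + 6 ≤ y.2 ∧ ¬ v (p + 2) (x.1.1 y.2) (y.1.1 y.2) := by
    rintro ⟨⟨t, htA⟩, n⟩
    obtain ⟨t', ht'A, ⟨N, hN⟩, hnot⟩ := hd t htA (n + 1)
    push Not at hnot
    obtain ⟨p, hp⟩ := hnot
    refine ⟨(⟨t', ht'A⟩, max (max (n + 1) N) (p + 6)), ?_, ?_, p, ?_, ?_⟩
    · exact le_trans (le_max_left _ _) (le_max_left _ _)
    · intro m hm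
      exact hN m (le_trans (le_trans (le_max_right _ _) (le_max_left _ _)) hm)
    · exact le_max_right _ _
    · intro hcon
      have h1 := close_of_one hr hs hc (hA t htA) (hA t' ht'A)
        (p := p) (m := max (max (n + 1) N) (p + 6)) (by
          have := le_max_right (max (n + 1) N) (p + 6)
          omega) hcon
      obtain ⟨m, hm, hm'⟩ := hp (max (max (n + 1) N) (p + 6))
      exact hm' (h1 m hm)
  choose next hn1 hn2 hn3 using step
  obtain ⟨t₀, ht₀⟩ := hne
  -- the nodes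
  let node : Set ℕ → ℕ → A × ℕ := fun a j =>
    Nat.rec (⟨t₀, ht₀⟩, 2) (fun j x => if j ∈ a then next x else (x.1, (next x).2)) j
  have node_zero : ∀ a, node a 0 = (⟨t₀, ht₀⟩, 2) := fun a => rfl
  have node_succ : ∀ a j, node a (j + 1) =
      if j ∈ a then next (node a j) else ((node a j).1, (next (node a j)).2) := fun a j => rfl
  have node_snd : ∀ a j, (node a (j + 1)).2 = (next (node a j)).2 := by
    intro a j
    rw [node_succ]
    split_ifs <;> rfl
  have lev : ∀ a j, j + 2 ≤ (node a j).2 := by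
    intro a j
    induction j with
    | zero => simp [node_zero]
    | succ j ih =>
      rw [node_snd]
      have := hn1 (node a j)
      omega
  have levs : ∀ a j, (node a j).2 + 1 ≤ (node a (j + 1)).2 := by
    intro a j
    rw [node_snd]
    exact hn1 _
  let s : Set ℕ → ℕ → ℕ := fun a j => (node a j).1.1 (node a j).2
  have hfast : ∀ a j, Fast v (node a j).1.1 := fun a j => hA _ (node a j).1.2
  have clo : ∀ a j m, (node a (j + 1)).2 ≤ m →
      v ((node a j).2 + 1) ((node a j).1.1 m) ((node a (j + 1)).1.1 m) := by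
    intro a j m hm
    rw [node_snd] at hm
    rw [node_succ]
    split_ifs
    · exact hn2 _ m hm
    · exact hr _ _
  -- one step of the final sequence
  have one : ∀ a j q, q + 1 = (node a j).2 → v q (s a j) (s a (j + 1)) := by
    intro a j q hq
    have h1 : v (node a j).2 ((node a j).1.1 (node a j).2) ((node a j).1.1 (node a (j + 1)).2) :=
      hfast a j _ _ (by have := levs a j; omega)
    have h2 := clo a j (node a (j + 1)).2 le_rfl
    exact v_comp hr hc (by omega) (by omega) h1 h2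
  have many : ∀ a k j q, q + 2 = (node a j).2 → v q (s a j) (s a (j + k)) := by
    intro a k
    induction k with
    | zero => intro j q _; exact hr _ _
    | succ k ih =>
      intro j q hq
      have h1 : v (q + 1) (s a j) (s a (j + 1)) := one a j (q + 1) (by omega)
      have hl := levs a j
      obtain ⟨q', hq'⟩ : ∃ q', q' + 2 = (node a (j + 1)).2 :=
        ⟨(node a (j + 1)).2 - 2, by omega⟩
      have h2 : v q' (s a (j + 1)) (s a (j + 1 + k)) := ih (j + 1) q' hq'
      have e : j + (k + 1) = j + 1 + k := by omega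
      rw [e]
      exact v_comp hr hc (by omega) (by omega) h1 h2
  have many' : ∀ a j k, j ≤ k → ∀ q, q + 2 ≤ (node a j).2 → v q (s a j) (s a k) := by
    intro a j k hjk q hq
    obtain ⟨d, rfl⟩ := Nat.exists_eq_add_of_le hjk
    obtain ⟨q', hq'⟩ : ∃ q', q' + 2 = (node a j).2 := ⟨(node a j).2 - 2, by omega⟩
    exact v_mono hr hc (by omega) (many a d j q' hq')
  refine ⟨s, fun a n m hnm => many' a n m hnm n (lev a n), ?_⟩
  intro a b hab
  -- first difference
  have hex : ∃ j, ¬ (j ∈ a ↔ j ∈ b) := by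
    by_contra hcon
    push Not at hcon
    exact hab (Set.ext hcon)
  let j := Nat.find hex
  have hj : ¬ (j ∈ a ↔ j ∈ b) := Nat.find_spec hex
  have hlt : ∀ i, i < j → (i ∈ a ↔ i ∈ b) := by
    intro i hi
    by_contra hcon
    exact Nat.find_min hex hi hcon
  have heq : ∀ i, i ≤ j → node a i = node b i := by
    intro i
    induction i with
    | zero => intro _; rfl
    | succ i ih =>
      intro hi
      rw [node_succ, node_succ, ih (by omega)]
      by_cases hia : i ∈ a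
      · rw [if_pos hia, if_pos ((hlt i (by omega)).1 hia)]
      · rw [if_neg hia, if_neg (fun h => hia ((hlt i (by omega)).2 h))]
  have hx := heq j le_rfl
  obtain ⟨p, hp6, hpn⟩ := hn3 (node b j)
  have l1 : (node a (j + 1)).2 = (next (node b j)).2 := by rw [node_snd, hx]
  have l2 : (node b (j + 1)).2 = (next (node b j)).2 := node_snd b j
  have key : ∀ c d : Set ℕ, node c j = node b j → node d j = node b j → j ∈ c → j ∉ d →
      ∀ k, j + 1 ≤ k → ¬ v (p + 4) (s c k) (s d k) := by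
    intro c d hcj hdj hc1 hd1 k hk hv
    have ec : node c (j + 1) = next (node b j) := by rw [node_succ, if_pos hc1, hcj]
    have ed : node d (j + 1) = ((node b j).1, (next (node b j)).2) := by
      rw [node_succ, if_neg hd1, hdj]
    have g1 : v (p + 4) (s c (j + 1)) (s c k) := many' c (j + 1) k hk (p + 4) (by
      rw [ec]; omega)
    have g2 : v (p + 4) (s d (j + 1)) (s d k) := many' d (j + 1) k hk (p + 4) (by
      rw [ed]; simpa using hp6)
    have sc : s c (j + 1) = (next (node b j)).1.1 (next (node b j)).2 := by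
      change (node c (j + 1)).1.1 (node c (j + 1)).2 = _
      rw [ec]
    have sd : s d (j + 1) = (node b j).1.1 (next (node b j)).2 := by
      change (node d (j + 1)).1.1 (node d (j + 1)).2 = _
      rw [ed]
    rw [sc] at g1
    rw [sd] at g2
    apply hpn
    apply hs
    have g3 : v (p + 3) ((next (node b j)).1.1 (next (node b j)).2) (s d k) :=
      v_comp hr hc (by omega) (by omega) g1 hv
    exact v_comp hr hc (by omega) (by omega) g3 (hs _ _ _ g2)
  refine ⟨p + 4, j + 1, ?_⟩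
  intro k hk
  by_cases ha : j ∈ a
  · have hb : j ∉ b := fun h => hj ⟨fun _ => h, fun _ => ha⟩
    exact key a b hx rfl ha hb k hk
  · have hb : j ∈ b := by
      by_contra h
      exact hj ⟨fun h' => absurd h' ha, fun h' => absurd h' h⟩
    intro hv
    exact key b a rfl hx hb ha k hk (hs _ _ _ hv)

/-- eventual equivalence -/
def Eqv (v : ℕ → ℕ → ℕ → Prop) (t t' : ℕ → ℕ) : Prop := ∀ n, ∃ N, ∀ m ≥ N, v n (t m) (t' m)

theorem Eqv.symm (hs : ∀ n i j, v n i j → v n j i) {t t' : ℕ → ℕ} (h : Eqv v t t') :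
    Eqv v t' t := by
  intro n
  obtain ⟨N, hN⟩ := h n
  exact ⟨N, fun m hm => hs _ _ _ (hN m hm)⟩

theorem countable_part (hr : ∀ n i, v n i i) (hs : ∀ n i j, v n i j → v n j i)
    (hc : ∀ n i j k, v (n + 1) i j → v (n + 1) j k → v n i k)
    (hsc : ∀ A : Set (ℕ → ℕ), A.Nonempty → (∀ t ∈ A, ∀ n m, n ≤ m → v n (t n) (t m)) →
      ∃ t ∈ A, ∃ n, ∀ t' ∈ A, (∃ N, ∀ m ≥ N, v n (t m) (t' m)) →
        ∀ n', ∃ N, ∀ m ≥ N, v n' (t m) (t' m)) :
    ∃ s : ℕ → ℕ → ℕ, (∀ i n m, n ≤ m → v n (s i n) (s i m)) ∧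
      ∀ t : ℕ → ℕ, (∀ n m, n ≤ m → v n (t n) (t m)) →
        ∃ i, ∀ n, ∃ N, ∀ m ≥ N, v n (t m) (s i m) := by
  classical
  -- covered basic sets
  let Cov : Set (ℕ × ℕ) := {x | ∃ s : ℕ → ℕ → ℕ, (∀ i, Fast v (s i)) ∧
    ∀ t, Fast v t → (∃ N, ∀ m ≥ N, v x.1 x.2 (t m)) → ∃ i, Eqv v t (s i)}
  let L : ℕ × ℕ → ℕ → ℕ → ℕ := fun x =>
    if h : x ∈ Cov then h.choose else fun _ _ => 0
  have hL : ∀ x i, Fast v (L x i) := by
    intro x i
    by_cases h : x ∈ Cov
    · simp only [L, dif_pos h]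
      exact h.choose_spec.1 i
    · simp only [L, dif_neg h]
      intro n m _
      exact hr _ _
  have hL2 : ∀ x ∈ Cov, ∀ t, Fast v t → (∃ N, ∀ m ≥ N, v x.1 x.2 (t m)) →
      ∃ i, Eqv v t (L x i) := by
    intro x h t ht hN
    simp only [L, dif_pos h]
    exact h.choose_spec.2 t ht hN
  by_contra hcon
  let e : ℕ → (ℕ × ℕ) × ℕ := fun i =>
    ((Nat.unpair (Nat.unpair i).1), (Nat.unpair i).2)
  have he : ∀ x : (ℕ × ℕ) × ℕ, ∃ i, e i = x := by
    rintro ⟨⟨a, b⟩, c⟩
    refine ⟨Nat.pair (Nat.pair a b) c, ?_⟩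
    simp [e]
  let A : Set (ℕ → ℕ) := {t | Fast v t ∧ ∀ x i, ¬ Eqv v t (L x i)}
  have hAne : A.Nonempty := by
    by_contra hA
    rw [Set.not_nonempty_iff_eq_empty] at hA
    apply hcon
    refine ⟨fun i => L (e i).1 (e i).2, fun i => hL _ _, ?_⟩
    intro t ht
    by_contra hno
    push Not at hno
    have : t ∈ A := by
      refine ⟨ht, ?_⟩
      intro x i hxi
      obtain ⟨k, hk⟩ := he (x, i)
      obtain ⟨n, hn⟩ := hno k
      rw [hk] at hn
      obtain ⟨N, hN⟩ := hxi n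
      obtain ⟨m, hm, hm'⟩ := hn N
      exact hm' (hN m hm)
    rw [hA] at this
    exact this
  obtain ⟨t, htA, n, hn⟩ := hsc A hAne (fun t ht => ht.1)
  -- the basic set around t is covered
  have hcov : ((n + 1, t (n + 1)) : ℕ × ℕ) ∈ Cov := by
    refine ⟨fun i => Nat.rec t (fun i _ => L (e i).1 (e i).2) i, ?_, ?_⟩
    · intro i
      cases i with
      | zero => exact htA.1
      | succ i => exact hL _ _
    · intro t' ht' hN
      by_cases h : ∃ x i, Eqv v t' (L x i)
      · obtain ⟨x, i, hxi⟩ := h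
        obtain ⟨k, hk⟩ := he (x, i)
        refine ⟨k + 1, ?_⟩
        change Eqv v t' (L (e k).1 (e k).2)
        rw [hk]
        exact hxi
      · push Not at h
        refine ⟨0, ?_⟩
        have h1 : t' ∈ A := ⟨ht', h⟩
        obtain ⟨N, hN⟩ := hN
        have h2 := hn t' h1 ⟨max N (n + 1), by
          intro m hm
          have hm1 : N ≤ m := le_trans (le_max_left _ _) hm
          have hm2 : n + 1 ≤ m := le_trans (le_max_right _ _) hm
          exact v_comp hr hc le_rfl le_rfl (hs _ _ _ (htA.1 (n + 1) m hm2)) (hN m hm1)⟩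
        exact Eqv.symm hs h2
  obtain ⟨i, hi⟩ := hL2 _ hcov t htA.1 ⟨n + 1, fun m hm => htA.1 (n + 1) m hm⟩
  exact htA.2 _ i hi

end

/-- dichotomy for a countable base of a uniformity on `ℕ`: the completion contains a Cantor set
or it is countable and scattered -/
theorem ground_dichotomy (v : ℕ → ℕ → ℕ → Prop) (hr : ∀ n i, v n i i)
    (hs : ∀ n i j, v n i j → v n j i) (hc : ∀ n i j k, v (n + 1) i j → v (n + 1) j k → v n i k) :
    (∃ s : Set ℕ → ℕ → ℕ, (∀ a, ∀ n m, n ≤ m → v n (s a n) (s a m)) ∧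
      ∀ a b, a ≠ b → ∃ n N, ∀ m ≥ N, ¬ v n (s a m) (s b m)) ∨
    ((∃ s : ℕ → ℕ → ℕ, (∀ i n m, n ≤ m → v n (s i n) (s i m)) ∧
      ∀ t : ℕ → ℕ, (∀ n m, n ≤ m → v n (t n) (t m)) → ∃ i, ∀ n, ∃ N, ∀ m ≥ N, v n (t m) (s i m)) ∧
     ∀ A : Set (ℕ → ℕ), A.Nonempty → (∀ t ∈ A, ∀ n m, n ≤ m → v n (t n) (t m)) →
      ∃ t ∈ A, ∃ n, ∀ t' ∈ A, (∃ N, ∀ m ≥ N, v n (t m) (t' m)) →
        ∀ n', ∃ N, ∀ m ≥ N, v n' (t m) (t' m)) := by
  by_cases hsc : ∀ A : Set (ℕ → ℕ), A.Nonempty → (∀ t ∈ A, ∀ n m, n ≤ m → v n (t n) (t m)) →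
      ∃ t ∈ A, ∃ n, ∀ t' ∈ A, (∃ N, ∀ m ≥ N, v n (t m) (t' m)) →
        ∀ n', ∃ N, ∀ m ≥ N, v n' (t m) (t' m)
  · exact Or.inr ⟨countable_part hr hs hc hsc, hsc⟩
  · left
    rw [not_forall] at hsc
    obtain ⟨A, hA⟩ := hsc
    rw [Classical.not_imp, Classical.not_imp] at hA
    obtain ⟨hne, hfast, hno⟩ := hA
    refine cantor_part hr hs hc A hne hfast ?_
    intro t ht n
    by_contra hcon
    apply hno
    refine ⟨t, ht, n, ?_⟩
    intro t' ht' hN
    by_contra h2
    exact hcon ⟨t', ht', hN, h2⟩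

end Pool.Agent.Helper44.Misc
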